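import Pool.Agent.Y291.PH.Half

/-!
# From a weak type inequality to the mean and to the moments of order less than one
-/

set_option autoImplicit false

namespace Pool.Agent.V11210.AD

open Real

/-- The weak type inequality bounds the mean within the logarithm of the maximum. -/
theorem mean_le {ι : Type} [Fintype ι] {N : ι → ℝ} {a U : ℝ} (ha : 0 ≤ a) (hU : 1 ≤ U)
    (hw : ∀ t : ℝ, 0 < t → (({i | t ≤ N i}.ncard : ℕ) : ℝ) ≤ a / t * Fintype.card ι)
    (hup : ∀ i, N i ≤ U) :
    ∑ i, N i ≤ (1 + a * (1 + Real.log U)) * Fintype.card ι := by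
  classical
  set K : ℕ := ⌊U⌋₊ with hK
  have hK1 : 1 ≤ K := Nat.le_floor (by simpa using hU)
  have hcard : ∀ k : ℕ, ∑ i, (if (k : ℝ) ≤ N i then (1 : ℝ) else 0) =
      (({i | (k : ℝ) ≤ N i}.ncard : ℕ) : ℝ) := by
    intro k
    rw [Finset.sum_ite, Finset.sum_const_zero, add_zero, Finset.sum_const, nsmul_eq_mul, mul_one]
    congr 1
    rw [← Set.ncard_coe_finset]
    congr 1
    ext i
    simp
  have hn0 : (0 : ℝ) ≤ Fintype.card ι := Nat.cast_nonneg _
  have h1 : ∀ i, N i ≤ ∑ k ∈ Finset.range (K + 1), (if (k : ℝ) ≤ N i then (1 : ℝ) else 0) := by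
    intro i
    rcases lt_or_ge (N i) 0 with h | h
    · refine h.le.trans (Finset.sum_nonneg fun k _ => ?_)
      split_ifs <;> norm_num
    · have h2 : ⌊N i⌋₊ ≤ K := Nat.floor_mono (hup i)
      have h3 : N i ≤ (⌊N i⌋₊ : ℝ) + 1 := (Nat.lt_floor_add_one _).le
      refine h3.trans ?_
      calc (⌊N i⌋₊ : ℝ) + 1 = ∑ k ∈ Finset.range (⌊N i⌋₊ + 1), (1 : ℝ) := by simp
        _ = ∑ k ∈ Finset.range (⌊N i⌋₊ + 1), (if (k : ℝ) ≤ N i then (1 : ℝ) else 0) := by
            refine Finset.sum_congr rfl fun k hk => ?_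
            rw [if_pos]
            have : k ≤ ⌊N i⌋₊ := Nat.lt_succ_iff.1 (Finset.mem_range.1 hk)
            exact (Nat.le_floor_iff h).1 this
        _ ≤ _ := by
            refine Finset.sum_le_sum_of_subset_of_nonneg ?_ fun k _ _ => ?_
            · exact Finset.range_subset_range.2 (by omega)
            · split_ifs <;> norm_num
  calc ∑ i, N i ≤ ∑ i, ∑ k ∈ Finset.range (K + 1), (if (k : ℝ) ≤ N i then (1 : ℝ) else 0) :=
        Finset.sum_le_sum fun i _ => h1 i
    _ = ∑ k ∈ Finset.range (K + 1), (({i | (k : ℝ) ≤ N i}.ncard : ℕ) : ℝ) := by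
        rw [Finset.sum_comm]
        exact Finset.sum_congr rfl fun k _ => hcard k
    _ = ∑ k ∈ Finset.range K, (({i | ((k + 1 : ℕ) : ℝ) ≤ N i}.ncard : ℕ) : ℝ) +
          (({i | ((0 : ℕ) : ℝ) ≤ N i}.ncard : ℕ) : ℝ) := Finset.sum_range_succ' _ _
    _ ≤ ∑ k ∈ Finset.range K, a / ((k + 1 : ℕ) : ℝ) * Fintype.card ι + Fintype.card ι := by
        refine add_le_add (Finset.sum_le_sum fun k _ => hw _ (by positivity)) ?_
        have := Set.ncard_le_card {i | ((0 : ℕ) : ℝ) ≤ N i}
        rw [Nat.card_eq_fintype_card] at this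
        exact_mod_cast this
    _ = (a * ((harmonic K : ℚ) : ℝ)) * Fintype.card ι + Fintype.card ι := by
        rw [← Finset.sum_mul]
        congr 2
        rw [harmonic]
        push_cast
        rw [Finset.mul_sum]
        exact Finset.sum_congr rfl fun k _ => by rw [div_eq_mul_inv]
    _ ≤ (a * (1 + Real.log U)) * Fintype.card ι + Fintype.card ι := by
        have h4 : ((harmonic K : ℚ) : ℝ) ≤ 1 + Real.log U := by
          refine (harmonic_le_one_add_log K).trans ?_
          have h5 : (K : ℝ) ≤ U := Nat.floor_le (by linarith)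
          have h6 : Real.log K ≤ Real.log U :=
            Real.log_le_log (by exact_mod_cast hK1) h5
          linarith
        gcongr
    _ = _ := by ring

/-- The weak type inequality bounds the means of slowly growing functions. -/
theorem weighted_le {ι : Type} [Fintype ι] {N : ι → ℝ} {a w0 : ℝ} {w : ℕ → ℝ} {Ψ : ℝ → ℝ}
    (ha : 0 ≤ a) (hw0 : 0 ≤ w0) (hwj : ∀ j, 0 ≤ w j) (hsum : Summable w) (hN : ∀ i, 0 ≤ N i)
    (h0 : ∀ x, 0 ≤ x → x < 1 → Ψ x ≤ w0)
    (hj : ∀ (j : ℕ) (x : ℝ), (2 : ℝ) ^ j ≤ x → x < (2 : ℝ) ^ (j + 1) → Ψ x ≤ (2 : ℝ) ^ j * w j)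
    (hw : ∀ t : ℝ, 0 < t → (({i | t ≤ N i}.ncard : ℕ) : ℝ) ≤ a / t * Fintype.card ι) :
    ∑ i, Ψ (N i) ≤ (w0 + a * ∑' j, w j) * Fintype.card ι := by
  classical
  have hn0 : (0 : ℝ) ≤ Fintype.card ι := Nat.cast_nonneg _
  -- an upper bound for all the numbers
  obtain ⟨J, hJ⟩ : ∃ J : ℕ, ∀ i, N i < (2 : ℝ) ^ J := by
    obtain ⟨J, hJ⟩ := pow_unbounded_of_one_lt (∑ i, N i) one_lt_two
    exact ⟨J, fun i => (Finset.single_le_sum (fun j _ => hN j) (Finset.mem_univ i)).trans_lt hJ⟩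
  have hcard : ∀ t : ℝ, ∑ i, (if t ≤ N i then (1 : ℝ) else 0) =
      (({i | t ≤ N i}.ncard : ℕ) : ℝ) := by
    intro t
    rw [Finset.sum_ite, Finset.sum_const_zero, add_zero, Finset.sum_const, nsmul_eq_mul, mul_one]
    congr 1
    rw [← Set.ncard_coe_finset]
    congr 1
    ext i
    simp
  have hterm0 : ∀ (i : ι) (j : ℕ), 0 ≤ ((2 : ℝ) ^ j * w j) *
      (if (2 : ℝ) ^ j ≤ N i then (1 : ℝ) else 0) := by
    intro i j
    refine mul_nonneg (mul_nonneg (by positivity) (hwj j)) ?_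
    split_ifs <;> norm_num
  have h1 : ∀ i, Ψ (N i) ≤ w0 + ∑ j ∈ Finset.range J, ((2 : ℝ) ^ j * w j) *
      (if (2 : ℝ) ^ j ≤ N i then (1 : ℝ) else 0) := by
    intro i
    have h3 := Finset.sum_nonneg fun j (_ : j ∈ Finset.range J) => hterm0 i j
    rcases lt_or_ge (N i) 1 with h | h
    · have h2 := h0 _ (hN i) h
      linarith
    · obtain ⟨j, hj1, hj2⟩ := exists_nat_pow_near h one_lt_two
      have hjJ : j < J := by
        by_contra hc
        push Not at hc
        have := (hj1.trans_lt (hJ i)).trans_le (pow_le_pow_right₀ one_le_two hc)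
        exact lt_irrefl _ this
      have h4 : Ψ (N i) ≤ ((2 : ℝ) ^ j * w j) * (if (2 : ℝ) ^ j ≤ N i then (1 : ℝ) else 0) := by
        rw [if_pos hj1, mul_one]
        exact hj j _ hj1 hj2
      have h5 := Finset.single_le_sum (fun j (_ : j ∈ Finset.range J) => hterm0 i j)
        (Finset.mem_range.2 hjJ)
      linarith
  calc ∑ i, Ψ (N i) ≤ ∑ i, (w0 + ∑ j ∈ Finset.range J, ((2 : ℝ) ^ j * w j) *
      (if (2 : ℝ) ^ j ≤ N i then (1 : ℝ) else 0)) := Finset.sum_le_sum fun i _ => h1 i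
    _ = Fintype.card ι * w0 + ∑ j ∈ Finset.range J, ((2 : ℝ) ^ j * w j) *
          (({i | (2 : ℝ) ^ j ≤ N i}.ncard : ℕ) : ℝ) := by
        rw [Finset.sum_add_distrib, Finset.sum_comm]
        simp only [← Finset.mul_sum, hcard]
        simp
    _ ≤ Fintype.card ι * w0 + ∑ j ∈ Finset.range J, (a * Fintype.card ι) * w j := by
        refine add_le_add le_rfl (Finset.sum_le_sum fun j _ => ?_)
        refine (mul_le_mul_of_nonneg_left (hw _ (by positivity))
          (mul_nonneg (by positivity) (hwj j))).trans (le_of_eq ?_)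
        field_simp
    _ ≤ Fintype.card ι * w0 + (a * Fintype.card ι) * ∑' j, w j := by
        rw [← Finset.mul_sum]
        refine add_le_add le_rfl (mul_le_mul_of_nonneg_left ?_ (by positivity))
        exact hsum.sum_le_tsum _ fun j _ => hwj j
    _ = _ := by ring

/-- The weights of the functions `x / (log (2 + x)) ^ (1 + ε)`. -/
noncomputable def wt (ε : ℝ) (j : ℕ) : ℝ :=
  2 * (2 / Real.log 2) ^ (1 + ε) * (1 / ((j + 1 : ℕ) : ℝ) ^ (1 + ε))

/-- The weak type inequality bounds the means of the functions `x / (log (2 + x)) ^ (1 + ε)`. -/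
theorem orlicz_le {ι : Type} [Fintype ι] {N : ι → ℝ} {a ε : ℝ} (ha : 0 ≤ a) (hε : 0 < ε)
    (hN : ∀ i, 0 ≤ N i)
    (hw : ∀ t : ℝ, 0 < t → (({i | t ≤ N i}.ncard : ℕ) : ℝ) ≤ a / t * Fintype.card ι) :
    ∑ i, N i / (Real.log (2 + N i)) ^ (1 + ε) ≤
      ((1 / (Real.log 2) ^ (1 + ε)) + a * ∑' j, wt ε j) * Fintype.card ι := by
  have hl2 : 0 < Real.log 2 := Real.log_pos one_lt_two
  refine weighted_le (Ψ := fun x => x / (Real.log (2 + x)) ^ (1 + ε)) ha (by positivity)
    (fun j => by unfold wt; positivity) ?_ hN ?_ ?_ hw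
  · unfold wt
    exact (((Real.summable_one_div_nat_rpow (p := 1 + ε)).2 (by linarith)).comp_injective
      (add_left_injective 1)).mul_left _
  · intro x hx hx1
    have h1 : Real.log 2 ≤ Real.log (2 + x) := Real.log_le_log two_pos (by linarith)
    have h2 : (Real.log 2) ^ (1 + ε) ≤ (Real.log (2 + x)) ^ (1 + ε) :=
      Real.rpow_le_rpow hl2.le h1 (by linarith)
    exact div_le_div₀ zero_le_one hx1.le (by positivity) h2
  · intro j x hx hx1
    have h3 : (2 : ℝ) ^ (((j : ℝ) + 1) / 2) ≤ 2 + x := by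
      rcases Nat.eq_zero_or_pos j with h | h
      · subst h
        have h4 : (2 : ℝ) ^ ((((0 : ℕ) : ℝ) + 1) / 2) ≤ (2 : ℝ) ^ (1 : ℝ) :=
          Real.rpow_le_rpow_of_exponent_le one_le_two (by norm_num)
        rw [Real.rpow_one] at h4
        have : (2 : ℝ) ^ 0 ≤ x := hx
        rw [pow_zero] at this
        linarith
      · have h4 : (2 : ℝ) ^ (((j : ℝ) + 1) / 2) ≤ (2 : ℝ) ^ ((j : ℕ) : ℝ) := by
          refine Real.rpow_le_rpow_of_exponent_le one_le_two ?_
          have : (1 : ℝ) ≤ j := by exact_mod_cast h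
          linarith
        rw [Real.rpow_natCast] at h4
        linarith
    have h5 : ((j : ℝ) + 1) * (Real.log 2 / 2) ≤ Real.log (2 + x) := by
      have h6 := Real.log_le_log (by positivity) h3
      rw [Real.log_rpow two_pos] at h6
      linarith
    have hx0 : 0 ≤ x := le_trans (by positivity) hx
    have h7 : (((j : ℝ) + 1) * (Real.log 2 / 2)) ^ (1 + ε) ≤ (Real.log (2 + x)) ^ (1 + ε) :=
      Real.rpow_le_rpow (by positivity) h5 (by linarith)
    show x / (Real.log (2 + x)) ^ (1 + ε) ≤ (2 : ℝ) ^ j * wt ε j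
    refine (div_le_div₀ (by positivity) hx1.le (by positivity) h7).trans (le_of_eq ?_)
    unfold wt
    rw [Real.mul_rpow (by positivity) (by positivity), Real.div_rpow (by positivity) (by positivity),
      Real.div_rpow (by positivity) (by positivity), pow_succ]
    push_cast
    field_simp

end Pool.Agent.V11210.AD
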