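import Pool.Agent.V11210.AD.Avg

/-!
# The doubling indices: nonnegativity and the bound by the square root of the eigenvalue
-/

set_option autoImplicit false

namespace Pool.Agent.V11210.AD

open MeasureTheory Real Pool.Agent.Y291.DB Pool.Agent.Y291.PA Pool.Agent.Y291.PH

/-- The doubling index is nonnegative. -/
theorem doubling_nonneg {ρ : ℝ × ℝ → ℝ} {L α lam : ℝ} (hL : 0 < L) {φ : ℝ × ℝ → ℝ}
    (hφ : Eigen ρ L α lam φ) (p : ℝ × ℝ) {r : ℝ} (hr : 0 < r) : 0 ≤ doubling ρ L α φ p r := by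
  obtain ⟨B, hB0, hB⟩ := bounded_of_per hL hφ.smooth.continuous hφ.perx hφ.pery
  have hbdd : ∀ s : Set (ℝ × ℝ), BddAbove ((fun q => |φ q|) '' s) := by
    intro s
    refine ⟨B, ?_⟩
    rintro _ ⟨q, _, rfl⟩
    exact hB q
  have hsub : disc ρ L α p r ⊆ disc ρ L α p (2 * r) := fun q hq =>
    lt_trans (show gdist ρ L α p q < r from hq) (by linarith)
  unfold doubling
  set S := sSup ((fun q => |φ q|) '' disc ρ L α p r) with hS
  set T := sSup ((fun q => |φ q|) '' disc ρ L α p (2 * r)) with hT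
  have hS0 : 0 ≤ S := Real.sSup_nonneg (by rintro _ ⟨q, _, rfl⟩; exact abs_nonneg _)
  have hT0 : 0 ≤ T := Real.sSup_nonneg (by rintro _ ⟨q, _, rfl⟩; exact abs_nonneg _)
  have hST : S ≤ T := by
    refine Real.sSup_le ?_ hT0
    rintro _ ⟨q, hq, rfl⟩
    exact le_csSup (hbdd _) ⟨q, hsub hq, rfl⟩
  rcases hS0.eq_or_lt with h | h
  · rw [← h, div_zero, Real.logb_zero]
  · exact Real.logb_nonneg one_lt_two ((one_le_div h).2 hST)

/-- The weak type inequality and the upper bound for all doubling indices. -/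
theorem weak_and_upper {ρ : ℝ × ℝ → ℝ} {L α : ℝ} (hL : 0 < L) (hρc : Continuous ρ)
    (hρpos : ∀ p, 0 < ρ p) (hρx : ∀ p : ℝ × ℝ, ρ (p.1 + L, p.2 + α) = ρ p)
    (hρy : ∀ p : ℝ × ℝ, ρ (p.1, p.2 + 2 * π) = ρ p) (hρa : AnalyticInSecond ρ)
    {C C₁ : ℝ} (hC : 0 < C) (hC1 : 0 < C₁) :
    ∃ a b : ℝ, 0 < a ∧ 1 ≤ b ∧ ∀ (lam : ℝ) (φ : ℝ × ℝ → ℝ), Eigen ρ L α lam φ →
      (∀ p, doubling ρ L α φ p (C / Real.sqrt lam) ≤ b * Real.sqrt (1 + lam)) ∧
      ∀ (ι : Type) [Fintype ι] (c : ι → ℝ × ℝ),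
        (∀ q : ℝ × ℝ, ∃ i, q ∈ disc ρ L α (c i) (C / Real.sqrt lam)) →
        (∀ q : ℝ × ℝ, ({i | q ∈ disc ρ L α (c i) (C / Real.sqrt lam)}.ncard : ℝ) ≤ C₁) →
        ∀ t : ℝ, 0 < t → (({i | t ≤ doubling ρ L α φ (c i) (C / Real.sqrt lam)}.ncard : ℕ) : ℝ) ≤
          a / t * Fintype.card ι := by
  obtain ⟨τ, M, F, hτ, hF⟩ := hρa
  obtain ⟨ρm, hρm0, hρm⟩ := bounded_below_of_per hL hρc hρpos hρx hρy
  obtain ⟨ρM, hρM0', hρM'⟩ := bounded_of_per hL hρc hρx hρy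
  have hρM : ∀ p, ρ p ≤ ρM := fun p => (le_abs_self _).trans (hρM' p)
  have hρM0 : 0 < ρM := (hρpos (0, 0)).trans_le (hρM _)
  have hM0 : 0 ≤ M := (norm_nonneg _).trans ((hF 0).2.1 0 (by simpa using hτ))
  obtain ⟨σ, hσ, hσ1, hστ⟩ : ∃ σ : ℝ, 0 < σ ∧ σ ≤ 1 ∧ 4 * σ ≤ τ / 2 := by
    refine ⟨min 1 (τ / 8), lt_min one_pos (by positivity), min_le_left _ _, ?_⟩
    have := min_le_right 1 (τ / 8)
    linarith
  have hdec : ∀ (k : ℤ) (x : ℝ), ‖um (fun x y => ρ (x, y)) k x‖ ≤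
      M * Real.exp (-(4 * σ * |(k : ℝ)|)) := by
    intro k x
    refine (um_decay (ρ := fun x y => ρ (x, y)) hτ (hF x).1 (hF x).2.1 (hF x).2.2
      (fun y => hρy (x, y)) k).trans ?_
    refine mul_le_mul_of_nonneg_left (Real.exp_le_exp.2 ?_) hM0
    nlinarith [abs_nonneg (k : ℝ)]
  obtain ⟨c1, cQ, hc1, hcQ, hctx⟩ := ctx_of_eigen (α := α) hL hρc hρy (fun p => (hρpos p).le) hρM
    hρM0 hσ hσ1 hM0 hdec
  have hsM : 0 < Real.sqrt ρM := Real.sqrt_pos.2 hρM0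
  obtain ⟨β, hβ, hβσ, hβC⟩ : ∃ β : ℝ, 0 < β ∧ β ≤ σ / 32 ∧ 8 * β * Real.sqrt ρM ≤ C := by
    refine ⟨min (σ / 32) (C / (8 * Real.sqrt ρM)), lt_min (by positivity) (by positivity),
      min_le_left _ _, ?_⟩
    have h1 := min_le_right (σ / 32) (C / (8 * Real.sqrt ρM))
    calc 8 * min (σ / 32) (C / (8 * Real.sqrt ρM)) * Real.sqrt ρM
        ≤ 8 * (C / (8 * Real.sqrt ρM)) * Real.sqrt ρM := by gcongr
      _ = C := by
          field_simp
  have hA : 0 ≤ 6 * C / Real.sqrt ρm + 3 * L + 6 * π := by positivity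
  obtain ⟨E, D, W, G, hE, hD, hW, hG, hgr⟩ := growth (L := L) (σ := σ) (c1 := c1) (cQ := cQ)
    (ρM := ρM) (β := β) (A := 6 * C / Real.sqrt ρm + 3 * L + 6 * π) hL hσ hσ1 hc1 hcQ hρM0.le hβ
    hβσ hA
  obtain ⟨a, ha, hfin⟩ := Pool.Agent.Y291.PH.assembly (C₁ := C₁) hL hρc hρx hρy hρm0 hρm hρM hC hβ
    (by linarith) hβC le_rfl hE hD hW hG hC1
  have hlog : 0 < Real.log 2 := Real.log_pos one_lt_two
  refine ⟨a, 1 + (E + 2 * D * G) / Real.log 2, ha, ?_, fun lam φ hφ => ?_⟩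
  · have : 0 ≤ (E + 2 * D * G) / Real.log 2 := by positivity
    linarith
  have hGr : ∃ Gr : ℝ → ℝ → ℝ,
      Growth φ lam β (6 * C / Real.sqrt ρm + 3 * L + 6 * π) E D W G Gr := by
    obtain ⟨φx, φxx, φy, φyy, hsol⟩ := sol_of_eigen hρc hφ
    obtain ⟨B, hB⟩ := hctx lam φ φx φxx φy φyy hφ hsol
    exact hgr lam B _ _ φx φxx φy φyy _ hφ.pos hB hsol fun x y =>
      mul_le_mul_of_nonneg_left (hρM _) hφ.pos.le
  refine ⟨fun p => ?_, fun ι _ c h1 h2 => hfin lam φ hφ hGr ι c h1 h2⟩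
  obtain ⟨Gr, hG'⟩ := hGr
  have hs1 : 1 ≤ Real.sqrt (1 + lam) := Real.one_le_sqrt.2 (by linarith [hφ.pos])
  rcases le_or_gt (doubling ρ L α φ p (C / Real.sqrt lam)) 0 with h | h
  · refine h.trans ?_
    have : 0 ≤ (E + 2 * D * G) / Real.log 2 := by positivity
    positivity
  · obtain ⟨X, hX1, hX2, hX3, hX4⟩ := doubling_le hL hρc hρx hρy hρm0 hρm hρM hC hβ
      (by linarith) hβC le_rfl hφ hG' p h
    have hne : X.Nonempty := by
      by_contra hc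
      rw [Set.not_nonempty_iff_eq_empty] at hc
      rw [hc, measure_empty, nonpos_iff_eq_zero, ENNReal.ofReal_eq_zero] at hX3
      have := dl_pos hφ.pos
      nlinarith [mul_pos hβ this]
    obtain ⟨x, hx⟩ := hne
    have h5 := hX4 x hx p.2 (by
      rw [sub_self, abs_zero]
      have := dl_pos hφ.pos
      positivity)
    have h6 := hG'.upper x p.2
    have h7 : G / dl lam = 2 * G * Real.sqrt (1 + lam) := by
      unfold dl
      field_simp
    rw [h7] at h6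
    have h8 : doubling ρ L α φ p (C / Real.sqrt lam) * Real.log 2 ≤
        (E + 2 * D * G) * Real.sqrt (1 + lam) := by
      have h9 : D * Gr x p.2 ≤ D * (2 * G * Real.sqrt (1 + lam)) :=
        mul_le_mul_of_nonneg_left h6 hD.le
      nlinarith
    rw [← le_div_iff₀ hlog] at h8
    refine h8.trans ?_
    have h10 : (E + 2 * D * G) * Real.sqrt (1 + lam) / Real.log 2 =
        (E + 2 * D * G) / Real.log 2 * Real.sqrt (1 + lam) := by ring
    rw [h10]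
    refine mul_le_mul_of_nonneg_right ?_ (by positivity)
    linarith

end Pool.Agent.V11210.AD
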